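import Pool.Agent.helper39.MS.DU1
import Pool.Agent.helper62.HF.SpecV

/-!
# MP_07c750, project HALF, row HLF: the microlocal lift and the covering property
-/

set_option autoImplicit false

open scoped MatrixGroups ContDiff Topology UpperHalfPlane ComplexConjugate
open UpperHalfPlane MeasureTheory Filter Set

namespace Pool.Agent.HV

open Pool.Agent.RS Pool.Agent.MS
open Pool.Agent.EN (XG MG mkX mkM fl pr)

theorem HLF_mono (B : Set SL(2, ℝ)) (K : ℝ) (J0 : ℕ) (Q Q' : ℝ) (hQ : Q ≤ Q') (h : LFI B K J0 Q) : LFI B K J0 Q' := by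
  intro g J a hJ hj
  refine (h g J a hJ hj).trans (mul_le_mul_of_nonneg_right hQ ?_)
  exact Finset.sum_nonneg fun j _ => by positivity

theorem HLF_proof (hHM1 : HM1_stmt) (hMU : MS.MU_stmt) (hSTB : MS.STB_stmt) (hXFL : EN.XFL_stmt)
    (hDOM : QU.DOM_stmt) (hDOB : QU.DOB_stmt) : HLF_stmt := by
  intro Γ F r φ ν hΓ hF hr hφ hn hfin hν
  obtain ⟨F₀, hF₀⟩ := hDOM Γ hΓ
  obtain ⟨-, -, -, -, hdob, -⟩ := hDOB Γ F₀ hΓ hF₀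
  have hdom := (hdob F hF).2
  obtain ⟨-, hprc, -, -, hsur, -, -, -, -, -, -, hmkM⟩ := hXFL Γ
  obtain ⟨-, -, -, -, -, hex⟩ := hSTB
  obtain ⟨β, hβ⟩ := (hex (1 / 4) (by norm_num)).2
  obtain ⟨α, hα'⟩ := (hex (1 / 8) (by norm_num)).1
  have hinv : ∀ k (γ : Γ) z, ‖φ k (γ • z)‖ ^ 2 = ‖φ k z‖ ^ 2 := by
    intro k γ z
    rw [(hφ k).2.1 γ z]
  have hn0 : ∀ k, nn F₀ (φ k) = 1 := by
    intro k
    unfold nn
    rw [← hdom _ (hinv k)]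
    exact hn k
  have hν0 : ∀ V : MG Γ → ℝ, Continuous V →
      Tendsto (fun k => ∫ z in F₀, V (mkM Γ z) * ‖φ k z‖ ^ 2) atTop (𝓝 (∫ x, V x ∂ν)) := by
    intro V hV
    refine (hν V hV).congr fun k => ?_
    refine hdom _ fun γ z => ?_
    rw [hinv k γ z, (hmkM (γ • z) z).2 ⟨γ⁻¹, by rw [inv_smul_smul]⟩]
  obtain ⟨μ, hμ, hflow, hmap, hlow⟩ := hMU Γ F₀ β α r φ ν hΓ hF₀ hβ hα' hr hφ hn0 hfin hν0
  obtain ⟨a0, ha0, hHM⟩ := hHM1 Γ F₀ β α hΓ hF₀ hβ hα'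
  refine ⟨μ, hμ, hflow, hmap, a0, ha0, ?_⟩
  intro a ha haa p p' hp0 hp1 hp0' hp1' hC
  set m : ℝ := p + p' with hm
  have hm0 : 0 ≤ m := add_nonneg hp0 hp0'
  have hm2 : m ≤ 2 := by linarith
  have key : ∀ ε : ℝ, 0 < ε → ε ≤ 1 → m ≤ 1 + ε := by
    intro ε hε hε1
    obtain ⟨δ, Λ, Q, hδ, -, hΛ, hQ, hMS⟩ := hHM a ha haa ε hε hε1
    obtain ⟨n, A, A', hAm, hAm', hL⟩ := hC Λ (min δ Q) hΛ (lt_min hδ hQ)
    have hδ1 : min δ Q ≤ δ := min_le_left _ _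
    obtain ⟨Ψ, Ψ', r2, hI, hI', h01, h01', h1, h1', hr2, hfinal⟩ := hMS n A A' (HLF_mono _ _ _ _ _ (min_le_right _ _) hL)
    have hc := DU1_lift_cont Γ Ψ hI
    have hc' := DU1_lift_cont Γ Ψ' hI'
    have g01 : ∀ x, 0 ≤ DU1_lift Γ Ψ hI x ∧ DU1_lift Γ Ψ hI x ≤ 1 := by
      intro x
      obtain ⟨g, rfl⟩ := hsur x
      exact h01 g
    have g01' : ∀ x, 0 ≤ DU1_lift Γ Ψ' hI' x ∧ DU1_lift Γ Ψ' hI' x ≤ 1 := by
      intro x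
      obtain ⟨g, rfl⟩ := hsur x
      exact h01' g
    have hi := DU1_low Γ hsur μ hμ A a _ Ψ hI h01 h1
    have hi' := DU1_low Γ hsur μ hμ A' a _ Ψ' hI' h01' h1'
    have hsum : ∫ x, (DU1_lift Γ Ψ hI x + DU1_lift Γ Ψ' hI' x) ∂μ =
        ∫ x, DU1_lift Γ Ψ hI x ∂μ + ∫ x, DU1_lift Γ Ψ' hI' x ∂μ :=
      integral_add (DU1_int Γ μ hμ _ hc g01) (DU1_int Γ μ hμ _ hc' g01')
    have hb : m - 4 * δ < ∫ x, (DU1_lift Γ Ψ hI x + DU1_lift Γ Ψ' hI' x) ∂μ := by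
      rw [hsum]
      linarith
    have hfr := hlow (fun x => DU1_lift Γ Ψ hI x + DU1_lift Γ Ψ' hI' x) (m - 4 * δ) (hc.add hc') hb
    have hev : ∀ᶠ k in atTop, r2 ≤ r k := hr.eventually (eventually_ge_atTop r2)
    obtain ⟨k, ⟨t, ht1, ht2, ht3⟩, hk⟩ := (hfr.and_eventually hev).exists
    refine hfinal (r k) m t (φ k) hk ?_ (hn0 k) hm0 hm2 ht1 ht2 ht3
    exact ⟨(hφ k).1.of_le (WithTop.coe_le_coe.2 (le_top : (2 : ℕ∞) ≤ ⊤)), (hφ k).2.1, fun z => by rw [(hφ k).2.2 z]⟩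
  by_contra hcon
  push Not at hcon
  have h1 := key (min ((m - 1) / 2) 1) (lt_min (by linarith) one_pos) (min_le_right _ _)
  have h2 : min ((m - 1) / 2) 1 ≤ (m - 1) / 2 := min_le_left _ _
  linarith

end Pool.Agent.HV
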