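import Pool.Agent.helper19.HF.SpecA

/-!
# hf:CND: finite conditional expectations
-/

set_option autoImplicit false

namespace Pool.Agent.HF

open Finset

theorem CND_one {Ω K : Type} [Fintype Ω] (φ : Ω → K) (f : Ω → ℝ) (hf : ∀ ω, 0 ≤ f ω ∧ f ω ≤ 1) (k : K) :
    0 ≤ vl φ f k ∧ vl φ f k ≤ 1 := by
  classical
  unfold vl
  constructor
  · exact div_nonneg (Finset.sum_nonneg fun ω _ => (hf ω).1) (Nat.cast_nonneg _)
  · refine div_le_one_of_le₀ ?_ (Nat.cast_nonneg _)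
    refine (Finset.sum_le_card_nsmul _ _ 1 fun ω _ => (hf ω).2).trans (le_of_eq ?_)
    rw [nsmul_eq_mul, mul_one]

theorem CND_two {Ω K : Type} [Fintype Ω] (φ : Ω → K) (f : Ω → ℝ) (g : K → ℝ) :
    ∑ ω, f ω * g (φ ω) = ∑ ω, vl φ f (φ ω) * g (φ ω) := by
  classical
  have h1 : ∀ ω, vl φ f (φ ω) * g (φ ω) =
      ∑ ω', (if φ ω' = φ ω then f ω' * g (φ ω') / ((univ.filter fun ω'' => φ ω'' = φ ω').card : ℝ) else 0) := by
    intro ω
    rw [← Finset.sum_filter]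
    unfold vl
    rw [div_mul_eq_mul_div, Finset.sum_mul, Finset.sum_div]
    refine Finset.sum_congr rfl fun ω' hω' => ?_
    rw [(Finset.mem_filter.1 hω').2]
  rw [Finset.sum_congr rfl fun ω _ => h1 ω, Finset.sum_comm]
  refine Finset.sum_congr rfl fun ω' _ => ?_
  have h2 : ∑ ω, (if φ ω' = φ ω then f ω' * g (φ ω') / ((univ.filter fun ω'' => φ ω'' = φ ω').card : ℝ) else 0) =
      ∑ ω ∈ univ.filter (fun ω => φ ω = φ ω'), f ω' * g (φ ω') / ((univ.filter fun ω'' => φ ω'' = φ ω').card : ℝ) := by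
    rw [Finset.sum_filter]
    refine Finset.sum_congr rfl fun ω _ => ?_
    by_cases h : φ ω = φ ω'
    · rw [if_pos h, if_pos h.symm]
    · rw [if_neg h, if_neg fun h' => h h'.symm]
  rw [h2, Finset.sum_const, nsmul_eq_mul]
  have h3 : (0 : ℝ) < ((univ.filter fun ω'' => φ ω'' = φ ω').card : ℝ) := by
    have : 0 < (univ.filter fun ω'' => φ ω'' = φ ω').card := Finset.card_pos.2 ⟨ω', by simp⟩
    exact_mod_cast this
  field_simp

theorem CND : CND_stmt := by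
  refine ⟨fun Ω K _ φ f hf k => CND_one φ f hf k, fun Ω K _ φ f g => ?_, fun Ω K K' _ φ' ρ f => ?_⟩
  · unfold Av
    rw [CND_two φ f g]
  · unfold Av
    rw [← sub_div]
    congr 1
    have h1 := CND_two φ' f (fun k' => vl (fun ω => ρ (φ' ω)) f (ρ k'))
    have h2 := CND_two (fun ω => ρ (φ' ω)) f (fun k => vl (fun ω => ρ (φ' ω)) f k)
    have h3 : ∀ ω, (vl φ' f (φ' ω) - vl (fun ω => ρ (φ' ω)) f (ρ (φ' ω))) ^ 2 =
        vl φ' f (φ' ω) ^ 2 - 2 * (vl φ' f (φ' ω) * vl (fun ω => ρ (φ' ω)) f (ρ (φ' ω))) +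
          vl (fun ω => ρ (φ' ω)) f (ρ (φ' ω)) * vl (fun ω => ρ (φ' ω)) f (ρ (φ' ω)) := fun ω => by ring
    rw [Finset.sum_congr rfl fun ω _ => h3 ω, Finset.sum_add_distrib, Finset.sum_sub_distrib, ← Finset.mul_sum]
    have h4 : ∑ ω, vl (fun ω => ρ (φ' ω)) f (ρ (φ' ω)) ^ 2 =
        ∑ ω, vl (fun ω => ρ (φ' ω)) f (ρ (φ' ω)) * vl (fun ω => ρ (φ' ω)) f (ρ (φ' ω)) :=
      Finset.sum_congr rfl fun ω _ => by ring
    rw [h4, ← h2, ← h1]
    ring

end Pool.Agent.HF
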